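import Pool.Agent.TH974.IH.Box

/-!
Harmonic functions with values in abelian groups: from integer-valued functions on finite boxes to
values in torsion free groups.
-/

set_option autoImplicit false

open Finset

namespace Pool.Agent.Y304.HG

open Pool.Agent.TH974.IH

/-- the Laplacian of the open subgraph for functions with values in an abelian group -/
def LapA {d : ℕ} {A : Type} [AddCommGroup A] (ω : Env d) (u : Zd d → A) (x : Zd d) : A :=
  ∑ i : Fin d, ((if ω (x, i) = true then u (x + Pi.single i 1) - u x else 0) +
    (if ω (x - Pi.single i 1, i) = true then u (x - Pi.single i 1) - u x else 0))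

theorem lapA_hom {d : ℕ} {A B : Type} [AddCommGroup A] [AddCommGroup B] (ω : Env d)
    (f : A →+ B) (u : Zd d → A) (x : Zd d) : LapA ω (fun y => f (u y)) x = f (LapA ω u x) := by
  unfold LapA
  rw [map_sum]
  refine Finset.sum_congr rfl fun i _ => ?_
  rw [map_add]
  congr 1
  · split_ifs
    · rw [map_sub]
    · rw [map_zero]
  · split_ifs
    · rw [map_sub]
    · rw [map_zero]

theorem lapA_congr {d : ℕ} {A : Type} [AddCommGroup A] (ω : Env d) {u v : Zd d → A} {x : Zd d}
    (h0 : u x = v x) (h1 : ∀ i, u (x + Pi.single i 1) = v (x + Pi.single i 1))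
    (h2 : ∀ i, u (x - Pi.single i 1) = v (x - Pi.single i 1)) : LapA ω u x = LapA ω v x := by
  unfold LapA
  refine Finset.sum_congr rfl fun i _ => ?_
  rw [h0, h1, h2]

theorem lapA_shift {d : ℕ} {A : Type} [AddCommGroup A] (ω : Env d) (u : Zd d → A) (z x : Zd d) :
    LapA (sh z ω) (fun y => u (y + z)) x = LapA ω u (x + z) := by
  unfold LapA sh
  refine Finset.sum_congr rfl fun i _ => ?_
  have e1 : x + Pi.single i 1 + z = x + z + Pi.single i 1 := by abel
  have e2 : x - Pi.single i 1 + z = x + z - Pi.single i 1 := by abel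
  simp only [e1, e2]

theorem divis {d r q : ℕ} {A : Type} [AddCommGroup A] [Module.IsTorsionFree ℤ A] (ω : Env d)
    (u : Zd d → A) (hu : ∀ x, LapA ω u x = 0) (x y : Zd d)
    (H : ∀ c : Zd d → ℤ, HarC r ω c → (c x : ZMod q) = c y) : ∃ b : A, q • b = u y - u x := by
  classical
  set S : Finset (Zd d) := cube d (-((r : ℤ) + 1)) ((r : ℤ) + 1) ∪ {x, y} with hS
  set N : Submodule ℤ A := Submodule.span ℤ (u '' (S : Set (Zd d))) with hN
  have hmem : ∀ z ∈ S, u z ∈ N := fun z hz => Submodule.subset_span ⟨z, hz, rfl⟩
  have hfin : Module.Finite ℤ N := Module.Finite.span_of_finite ℤ (S.finite_toSet.image u)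
  have hfree : Module.Free ℤ N := Module.free_of_finite_type_torsion_free'
  set B := Module.Free.chooseBasis ℤ N with hB
  set v : Zd d → N := fun z => if h : z ∈ S then ⟨u z, hmem z h⟩ else 0 with hv
  have hvS : ∀ z ∈ S, ((v z : N) : A) = u z := by
    intro z hz
    simp only [hv, dif_pos hz]
  have hvlap : ∀ z ∈ cube d (-(r : ℤ)) r, LapA ω v z = 0 := by
    intro z hz
    apply Subtype.coe_injective
    have h1 := lapA_hom ω N.subtype.toAddMonoidHom v z
    have hz' : ∀ j, -(r : ℤ) ≤ z j ∧ z j ≤ r := by
      intro j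
      have := (Fintype.mem_piFinset.1 hz) j
      exact Finset.mem_Icc.1 this
    have m0 : z ∈ S := by
      refine Finset.mem_union_left _ (Fintype.mem_piFinset.2 fun j => Finset.mem_Icc.2 ?_)
      have := hz' j
      constructor <;> linarith [this.1, this.2]
    have m1 : ∀ i, z + Pi.single i 1 ∈ S := by
      intro i
      refine Finset.mem_union_left _ (Fintype.mem_piFinset.2 fun j => Finset.mem_Icc.2 ?_)
      have := hz' j
      rw [Pi.add_apply]
      by_cases hj : j = i
      · subst hj
        rw [Pi.single_eq_same]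
        constructor <;> linarith [this.1, this.2]
      · rw [Pi.single_eq_of_ne hj]
        constructor <;> linarith [this.1, this.2]
    have m2 : ∀ i, z - Pi.single i 1 ∈ S := by
      intro i
      refine Finset.mem_union_left _ (Fintype.mem_piFinset.2 fun j => Finset.mem_Icc.2 ?_)
      have := hz' j
      rw [Pi.sub_apply]
      by_cases hj : j = i
      · subst hj
        rw [Pi.single_eq_same]
        constructor <;> linarith [this.1, this.2]
      · rw [Pi.single_eq_of_ne hj]
        constructor <;> linarith [this.1, this.2]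
    have h2 : LapA ω (fun w => ((v w : N) : A)) z = LapA ω u z :=
      lapA_congr ω (hvS z m0) (fun i => hvS _ (m1 i)) (fun i => hvS _ (m2 i))
    have h3 : ((LapA ω v z : N) : A) = LapA ω (fun w => ((v w : N) : A)) z := h1.symm
    show ((LapA ω v z : N) : A) = 0
    rw [h3, h2, hu z]
  have hc : ∀ j, ((B.coord j (v x) : ℤ) : ZMod q) = B.coord j (v y) := by
    intro j
    refine H (fun z => B.coord j (v z)) ?_
    intro z hz
    have h1 := lapA_hom ω (B.coord j).toAddMonoidHom v z
    rw [hvlap z hz, map_zero] at h1
    exact h1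
  have hk : ∀ j, ∃ k : ℤ, B.coord j (v y) - B.coord j (v x) = q * k := by
    intro j
    have h1 := hc j
    rw [ZMod.intCast_eq_intCast_iff_dvd_sub] at h1
    exact h1
  choose k hk using hk
  have hx : x ∈ S := Finset.mem_union_right _ (by simp)
  have hy : y ∈ S := Finset.mem_union_right _ (by simp)
  refine ⟨((∑ j, k j • B j : N) : A), ?_⟩
  have h1 : q • (∑ j, k j • B j) = v y - v x := by
    rw [← B.sum_repr (v y - v x), Finset.smul_sum]
    refine Finset.sum_congr rfl fun j _ => ?_
    have h2 : B.repr (v y - v x) j = q * k j := by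
      rw [← hk j, map_sub]
      rfl
    rw [h2, mul_smul]
    simp
  have h2 := congrArg (fun w : N => (w : A)) h1
  simp only [Submodule.coe_sub, hvS x hx, hvS y hy] at h2
  rw [← h2]
  simp

end Pool.Agent.Y304.HG
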