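import Mathlib

/-!
Divisibility of algebraic integers and of elements of finitely generated groups by primes.
-/

set_option autoImplicit false

open Finset

namespace Pool.Agent.Y304.HG

/-- a nonzero algebraic integer is divisible by only finitely many primes -/
theorem fin_div {a : ℂ} (ha : IsIntegral ℤ a) (h0 : a ≠ 0) :
    {q : ℕ | q.Prime ∧ IsIntegral ℤ (a / q)}.Finite := by
  have haQ : IsIntegral ℚ a := ha.tower_top
  set K := IntermediateField.adjoin ℚ {a} with hK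
  have hfd : FiniteDimensional ℚ K := IntermediateField.adjoin.finiteDimensional haQ
  set γ : K := IntermediateField.AdjoinSimple.gen ℚ a with hγ
  have hγa : (γ : ℂ) = a := IntermediateField.AdjoinSimple.coe_gen ℚ a
  have hγ0 : γ ≠ 0 := by
    intro h
    rw [h] at hγa
    exact h0 hγa.symm
  have hinj : Function.Injective (algebraMap K ℂ) := (algebraMap K ℂ).injective
  have hint : ∀ δ : K, IsIntegral ℤ (δ : ℂ) → ∃ m : ℤ, (m : ℚ) = Algebra.norm ℚ δ := by
    intro δ hδ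
    have h1 : IsIntegral ℤ δ := (isIntegral_algebraMap_iff (B := ℂ) hinj).1 hδ
    have h2 : IsIntegral ℤ (Algebra.norm ℚ δ) := Algebra.isIntegral_norm ℚ h1
    obtain ⟨m, hm⟩ := IsIntegrallyClosed.isIntegral_iff.1 h2
    exact ⟨m, hm⟩
  obtain ⟨M, hM⟩ := hint γ (by rw [hγa]; exact ha)
  have hM0 : M ≠ 0 := by
    intro h
    rw [h] at hM
    have : Algebra.norm ℚ γ = 0 := by rw [← hM]; simp
    exact hγ0 (Algebra.norm_eq_zero_iff.1 this)
  refine (Nat.divisors M.natAbs).finite_toSet.subset ?_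
  rintro q ⟨hq, hi⟩
  have hq0 : (q : K) ≠ 0 := by exact_mod_cast hq.ne_zero
  obtain ⟨m, hm⟩ := hint (γ / q) (by push_cast; rw [hγa]; exact hi)
  have h1 : γ = algebraMap ℚ K (q : ℚ) * (γ / q) := by
    rw [map_natCast, mul_div_cancel₀ _ hq0]
  have h2 : Algebra.norm ℚ γ = (q : ℚ) ^ Module.finrank ℚ K * Algebra.norm ℚ (γ / q) := by
    conv_lhs => rw [h1]
    rw [map_mul, Algebra.norm_algebraMap]
  rw [← hM, ← hm] at h2
  have h3 : M = (q : ℤ) ^ Module.finrank ℚ K * m := by exact_mod_cast h2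
  have h4 : 0 < Module.finrank ℚ K := Module.finrank_pos
  have h5 : (q : ℤ) ∣ M := by
    rw [h3]
    exact Dvd.dvd.mul_right (dvd_pow_self _ h4.ne') _
  rw [Finset.mem_coe, Nat.mem_divisors]
  exact ⟨Int.natCast_dvd.1 h5, Int.natAbs_ne_zero.2 hM0⟩

/-- the complex numbers which are algebraic integers after multiplication by a power of `N` -/
def AlgN (N : ℕ) : AddSubgroup ℂ where
  carrier := {z | ∃ k : ℕ, IsIntegral ℤ ((N : ℂ) ^ k * z)}
  zero_mem' := ⟨0, by simpa using isIntegral_zero⟩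
  neg_mem' := by
    rintro z ⟨k, hk⟩
    refine ⟨k, ?_⟩
    rw [mul_neg]
    exact hk.neg
  add_mem' := by
    rintro z w ⟨k, hk⟩ ⟨l, hl⟩
    refine ⟨k + l, ?_⟩
    have hN : IsIntegral ℤ ((N : ℂ)) := by
      have := isIntegral_algebraMap (R := ℤ) (A := ℂ) (x := (N : ℤ))
      simpa using this
    have e : (N : ℂ) ^ (k + l) * (z + w) = (N : ℂ) ^ l * ((N : ℂ) ^ k * z) +
        (N : ℂ) ^ k * ((N : ℂ) ^ l * w) := by ring
    rw [e]
    exact ((hN.pow l).mul hk).add ((hN.pow k).mul hl)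

theorem mem_AlgN {N : ℕ} {z : ℂ} : z ∈ AlgN N ↔ ∃ k : ℕ, IsIntegral ℤ ((N : ℂ) ^ k * z) := Iff.rfl

theorem fin_AlgN {N : ℕ} (hN : 1 ≤ N) {a : AlgN N} (h0 : a ≠ 0) :
    {q : ℕ | q.Prime ∧ ∃ b : AlgN N, q • b = a}.Finite := by
  obtain ⟨k, hk⟩ := a.2
  have hN0 : (N : ℂ) ≠ 0 := by
    have : N ≠ 0 := by omega
    exact_mod_cast this
  have ha0 : (a : ℂ) ≠ 0 := fun h => h0 (Subtype.ext h)
  have hα0 : (N : ℂ) ^ k * (a : ℂ) ≠ 0 := mul_ne_zero (pow_ne_zero _ hN0) ha0
  refine ((fin_div hk hα0).union ((Nat.divisors N).finite_toSet)).subset ?_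
  rintro q ⟨hq, b, hb⟩
  by_cases hqN : q ∣ N
  · right
    rw [Finset.mem_coe, Nat.mem_divisors]
    exact ⟨hqN, by omega⟩
  · left
    refine ⟨hq, ?_⟩
    obtain ⟨j, hj⟩ := b.2
    have hq0 : (q : ℂ) ≠ 0 := by exact_mod_cast hq.ne_zero
    have hab : (a : ℂ) = q * b := by
      rw [← hb]
      simp
    have hNint : IsIntegral ℤ ((N : ℂ)) := by
      have := isIntegral_algebraMap (R := ℤ) (A := ℂ) (x := (N : ℤ))
      simpa using this
    have hco : IsCoprime (q : ℤ) ((N : ℤ) ^ j) := by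
      rw [Int.isCoprime_iff_gcd_eq_one]
      have h1 : Nat.Coprime q (N ^ j) := Nat.Coprime.pow_right j ((Nat.Prime.coprime_iff_not_dvd hq).2 hqN)
      exact_mod_cast h1
    obtain ⟨s, t, hst⟩ := hco
    have hstC : (s : ℂ) * q + t * (N : ℂ) ^ j = 1 := by exact_mod_cast hst
    have e : (N : ℂ) ^ k * (a : ℂ) / q = s * ((N : ℂ) ^ k * (a : ℂ)) +
        t * ((N : ℂ) ^ k * ((N : ℂ) ^ j * b)) := by
      rw [hab]
      field_simp
      linear_combination (-(b : ℂ)) * hstC
    rw [e]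
    have hs : ∀ s : ℤ, IsIntegral ℤ ((s : ℂ)) := by
      intro s
      have := isIntegral_algebraMap (R := ℤ) (A := ℂ) (x := s)
      simpa using this
    exact ((hs s).mul hk).add ((hs t).mul ((hNint.pow k).mul hj))

/-- nonzero elements of finitely generated torsion free groups are divisible by finitely many
primes -/
theorem fin_fg {A : Type} [AddCommGroup A] [Module.Finite ℤ A] [Module.IsTorsionFree ℤ A] {a : A}
    (h0 : a ≠ 0) : {q : ℕ | q.Prime ∧ ∃ b : A, q • b = a}.Finite := by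
  have hfree : Module.Free ℤ A := Module.free_of_finite_type_torsion_free'
  set B := Module.Free.chooseBasis ℤ A with hB
  have h1 : ∃ j, B.repr a j ≠ 0 := by
    by_contra hc
    push Not at hc
    apply h0
    apply B.repr.injective
    rw [map_zero]
    ext j
    simpa using hc j
  obtain ⟨j, hj⟩ := h1
  refine (Nat.divisors (B.repr a j).natAbs).finite_toSet.subset ?_
  rintro q ⟨_, b, hb⟩
  have h2 : (q : ℤ) ∣ B.repr a j := by
    refine ⟨B.repr b j, ?_⟩
    rw [← hb, map_nsmul]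
    simp
  rw [Finset.mem_coe, Nat.mem_divisors]
  exact ⟨Int.natCast_dvd.1 h2, Int.natAbs_ne_zero.2 hj⟩

end Pool.Agent.Y304.HG
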