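import Pool.Agent.Y304.HG.Prob
import Pool.Agent.Y304.HG.Alg
import Pool.Agent.Y304.HG.Num

/-!
Harmonic functions on percolation clusters with values in torsion free abelian groups: assembly.
-/

set_option autoImplicit false

open MeasureTheory

namespace Pool.Agent.Y304.HG

open Pool.Agent.TH974.IH

theorem main_A (D : ℕ) (hD : 1 ≤ D) (p : ℝ) (hp0 : 0 < p) (hp1 : p < 1) :
    ∀ᵐ ω ∂(perc (D + 1) p), ∀ (A : Type) [AddCommGroup A] [Module.IsTorsionFree ℤ A],
      (∀ a : A, a ≠ 0 → {q : ℕ | q.Prime ∧ ∃ b : A, q • b = a}.Finite) →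
      ∀ u : Zd (D + 1) → A, (∀ x, LapA ω u x = 0) → ∀ e, ω e = true → u (hd e) = u e.1 := by
  obtain ⟨rs, h⟩ := main3p D hD p hp0 hp1
  filter_upwards [h] with ω hω A _ _ hP u hu e he
  by_contra hne
  have hne' : u (hd e) - u e.1 ≠ 0 := sub_ne_zero.2 hne
  obtain ⟨M, hM⟩ := (hP _ hne').bddAbove
  obtain ⟨m, q, hMq, hq, hc⟩ := hω e he M
  have e1 : tt (D + 1) m + t3_z e.1 m = e.1 := by
    unfold t3_z tt
    abel
  have e2 : hd (tt (D + 1) m, e.2) + t3_z e.1 m = hd e := by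
    unfold hd
    show tt (D + 1) m + Pi.single e.2 1 + t3_z e.1 m = e.1 + Pi.single e.2 1
    rw [add_right_comm, e1]
  obtain ⟨b, hb⟩ := divis (r := rs m) (q := q) (sh (t3_z e.1 m) ω) (fun y => u (y + t3_z e.1 m))
    (fun x => by rw [lapA_shift]; exact hu _) (tt (D + 1) m) (hd (tt (D + 1) m, e.2)) hc
  simp only [e1, e2] at hb
  have := hM ⟨hq, b, hb⟩
  omega

/-- the finite volume form: functions which are harmonic in a large box only -/
theorem main_loc (D : ℕ) (hD : 1 ≤ D) (p : ℝ) (hp0 : 0 < p) (hp1 : p < 1) :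
    ∀ᵐ ω ∂(perc (D + 1) p), ∀ e : Ed (D + 1), ω e = true → ∀ M : ℕ, ∃ R q : ℕ, M < q ∧ q.Prime ∧
      ∀ u : Zd (D + 1) → ℤ, (∀ z : Zd (D + 1), (∀ i, |z i - e.1 i| ≤ R) → LapA ω u z = 0) →
        (q : ℤ) ∣ u (hd e) - u e.1 := by
  obtain ⟨rs, h⟩ := main3p D hD p hp0 hp1
  filter_upwards [h] with ω hω e he M
  obtain ⟨m, q, hMq, hq, hc⟩ := hω e he M
  refine ⟨rs m + (655200 * m + 2), q, hMq, hq, fun u hu => ?_⟩
  have e1 : tt (D + 1) m + t3_z e.1 m = e.1 := by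
    unfold t3_z tt
    abel
  have e2 : hd (tt (D + 1) m, e.2) + t3_z e.1 m = hd e := by
    unfold hd
    show tt (D + 1) m + Pi.single e.2 1 + t3_z e.1 m = e.1 + Pi.single e.2 1
    rw [add_right_comm, e1]
  have h1 := hc (fun y => u (y + t3_z e.1 m)) (by
    intro x hx
    have h2 := lapA_shift ω u (t3_z e.1 m) x
    refine Eq.trans h2 (hu _ fun i => ?_)
    have h3 := Finset.mem_Icc.1 ((Fintype.mem_piFinset.1 hx) i)
    have h4 : (x + t3_z e.1 m) i - e.1 i = x i - (655200 * (m : ℤ) + 2) := by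
      unfold t3_z
      simp only [Pi.add_apply, Pi.sub_apply]
      ring
    rw [h4, abs_le]
    push_cast
    constructor <;> linarith [h3.1, h3.2])
  simp only [e1, e2] at h1
  exact (ZMod.intCast_eq_intCast_iff_dvd_sub _ _ _).1 h1

end Pool.Agent.Y304.HG
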