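import Pool.Agent.TH974.IH.Asm
import Pool.Agent.TH914.J2372

/-!
Harmonic functions on percolation clusters with values in abelian groups: the probabilistic part.
Adapted from `Pool.Agent.TH974.IH.Asm` (theorem `main1`) and `Pool.Agent.TH914.J2372`
(theorem `main2`).
-/

set_option autoImplicit false

open Finset MeasureTheory ProbabilityTheory Filter Topology
open scoped ENNReal NNReal

namespace Pool.Agent.Y304.HG

open Pool.Agent.TH974.IH
open Pool.Agent.TH974.IHA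
open Pool.Agent.TH209.IH3 (gad_of_net)
open Pool.Agent.TH554.J2165 (X1_OK X2_OK)
open Pool.Agent.TH645.IH (perc_prob perc_shift perc_cyl)
open Pool.Agent.TH740.J2356 (TLP)
open Pool.Agent.TH974.IHG (GM S1P)
open Pool.Agent.TH209.IH4 (conn_faces)
open Pool.Agent.TH611.J2195 (EB_fin EB_disj)
open Pool.Agent.TH611.J2197 (final_zero)

/-- the quantitative estimate, with prime moduli -/
theorem main1p (D : ℕ) (hD : 1 ≤ D) (p : ℝ) (hp0 : 0 < p) (hp1 : p < 1) :
    ∃ qs rs : ℕ → ℕ, (∀ᶠ m in atTop, (qs m).Prime ∧ m < qs m) ∧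
      Tendsto (fun m => (perc (D + 1) p).real {ω | ω ∈ (X2 (D + 1) (KK m)).G ∧
        ∃ u, HarC (rs m) ω u ∧ ∃ e ∈ (X2 (D + 1) (KK m)).E, ω e = true ∧
          (u e.1 : ZMod (qs m)) ≠ u (hd e)}) atTop (𝓝 0) := by
  obtain ⟨n0, hn0⟩ := many_primes
  have : IsProbabilityMeasure (perc (D + 1) p) := perc_prob p hp0.le hp1.le
  set θ := min p (1 - p) with hθ
  have hθ0 : 0 < θ := lt_min hp0 (by linarith)
  have hθ1 : θ ≤ 1 := (min_le_left _ _).trans hp1.le
  -- the bound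
  set f : ℕ → ℝ := fun m => 1 / ((m : ℝ) + 1) + (2 * (D + 1) * (KK m + 6 : ℝ) ^ D) /
      (θ ^ (4 * (D + 1) ^ 2 * (KK m + 4) ^ D + 2 * (D + 1) * (c0 + 20)) *
        2 ^ (m ^ (D + 1) / (2 * (D + 1)))) +
      (((2 : ℝ) ^ (m ^ (D + 1) / (2 * (D + 1)))) ^ (D + 1) * (2 * (D + 1) * (KK m + 4) ^ D) + 1) *
        ((2 * (D + 1) * (KK m + 4) ^ D + 1) * (KK m + 6) ^ (D + 1) * Real.log (4 * (D + 1)) /
          (2 ^ (m ^ (D + 1)) * Real.log 2)) /
      θ ^ (4 * (D + 1) ^ 2 * (KK m + 4) ^ D + 2 * (D + 1) * (c0 + 20)) + (1 - p) ^ (KK m) with hf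
  have key : ∀ m : ℕ, max n0 4 ≤ m → ∃ q r : ℕ, (q.Prime ∧ m < q) ∧
      (perc (D + 1) p).real {ω | ω ∈ (X2 (D + 1) (KK m)).G ∧
        ∃ u, HarC r ω u ∧ ∃ e ∈ (X2 (D + 1) (KK m)).E, ω e = true ∧
          (u e.1 : ZMod q) ≠ u (hd e)} ≤ f m := by
    intro m hm
    have hm1 : n0 ≤ m := (le_max_left _ _).trans hm
    have hm2 : 4 ≤ m := (le_max_right _ _).trans hm
    set n := m ^ (D + 1) with hn
    have hmn : m ≤ n := Nat.le_self_pow (by omega) m
    set Q := (Finset.range (4 ^ n + 1)).filter fun q => q.Prime ∧ c0 < q ∧ n < q with hQdef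
    have hQc : 2 ^ n ≤ Q.card := hn0 n (hm1.trans hmn)
    have hQ0 : Q.Nonempty := by
      rw [← Finset.card_pos]
      exact lt_of_lt_of_le (by positivity) hQc
    have hQ : ∀ q ∈ Q, q.Prime ∧ c0 < q ∧ q ≤ 4 ^ (m ^ (D + 1)) := by
      intro q hq
      rw [hQdef, Finset.mem_filter, Finset.mem_range] at hq
      exact ⟨hq.2.1, hq.2.2.1, by rw [← hn]; omega⟩
    have hQn : ∀ q ∈ Q, m < q := by
      intro q hq
      rw [hQdef, Finset.mem_filter, Finset.mem_range] at hq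
      omega
    set a := 4 * (D + 1) ^ 2 * (KK m + 4) ^ D + 2 * (D + 1) * (c0 + 20) with ha
    have hα : 0 < θ ^ a := pow_pos hθ0 a
    have hα1 : ∀ (x y : Zd (D + 1)) (pl : List (Zd (D + 1))),
        pl.length ≤ 2 * (D + 1) * (KK m + 2) ^ D + c0 + 20 →
        θ ^ a ≤ (perc (D + 1) p).real (Apath (X1 (D + 1) (KK m) x y).E pl) := by
      intro x y pl hpl
      refine le_trans ?_ (Apath_lower p hp0 hp1 _ pl)
      refine pow_le_pow_of_le_one hθ0.le hθ1 ?_
      have h1 : (KK m + 2) ^ D ≤ (KK m + 4) ^ D := Nat.pow_le_pow_left (by omega) D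
      calc 2 * (D + 1) * pl.length ≤ 2 * (D + 1) * (2 * (D + 1) * (KK m + 2) ^ D + c0 + 20) :=
            Nat.mul_le_mul_left _ hpl
        _ ≤ 2 * (D + 1) * (2 * (D + 1) * (KK m + 4) ^ D + c0 + 20) := by
            refine Nat.mul_le_mul_left _ ?_
            have := Nat.mul_le_mul_left (2 * (D + 1)) h1
            omega
        _ = a := by rw [ha]; ring
    have hα2 : θ ^ a ≤ (perc (D + 1) p).real (SR (D + 1) (KK m)) := by
      refine le_trans ?_ (SR_lower (by omega) p hp0 hp1 (KK m))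
      refine pow_le_pow_of_le_one hθ0.le hθ1 ?_
      have : D + 1 - 1 = D := by omega
      rw [this, ha]
      exact Nat.le_add_right _ _
    obtain ⟨q, hq, r, hr⟩ := STG D m hD hm2 p hp0 hp1 (θ ^ a) hα hα1 hα2
      (2 ^ (n / (2 * (D + 1)))) (Nat.one_le_two_pow) Q hQ hQ0 (1 / ((m : ℝ) + 1)) (by positivity)
    refine ⟨q, r, ⟨(hQ q hq).1, hQn q hq⟩, ?_⟩
    have hsub : {ω | ω ∈ (X2 (D + 1) (KK m)).G ∧
        ∃ u, HarC r ω u ∧ ∃ e ∈ (X2 (D + 1) (KK m)).E, ω e = true ∧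
          (u e.1 : ZMod q) ≠ u (hd e)} ⊆
        {ω | ω ∈ (X2 (D + 1) (KK m)).G ∧ ω ∉ SR (D + 1) (KK m) ∧
        ∃ u, HarC r ω u ∧ ∃ e ∈ (X2 (D + 1) (KK m)).E, ω e = true ∧
          (u e.1 : ZMod q) ≠ u (hd e)} ∪ SR (D + 1) (KK m) := by
      rintro ω ⟨h1, h2⟩
      by_cases h3 : ω ∈ SR (D + 1) (KK m)
      · exact Or.inr h3
      · exact Or.inl ⟨h1, h3, h2⟩
    refine (measureReal_mono hsub).trans ((measureReal_union_le _ _).trans ?_)
    refine (add_le_add hr (SR_upper (by omega) p hp0 hp1 (KK m))).trans ?_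
    rw [hf]
    have hcF : ((Fc (D + 1) (KK m)).card : ℝ) ≤ 2 * ((D : ℝ) + 1) * ((KK m : ℝ) + 4) ^ D := by
      have := Fc_card (D + 1) (KK m) (by omega)
      have h1 : D + 1 - 1 = D := by omega
      rw [h1] at this
      calc ((Fc (D + 1) (KK m)).card : ℝ) ≤ ((2 * (D + 1) * (KK m + 4) ^ D : ℕ) : ℝ) := by
            exact_mod_cast this
        _ = _ := by push_cast; ring
    have hQc' : (2 : ℝ) ^ n ≤ Q.card := by exact_mod_cast hQc
    have hlog2 : 0 < Real.log 2 := Real.log_pos one_lt_two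
    have hlog4 : (0 : ℝ) ≤ Real.log (4 * ((D : ℝ) + 1)) := by
      apply Real.log_nonneg
      nlinarith [(Nat.cast_nonneg D : (0 : ℝ) ≤ D)]
    have hN2 : ((2 ^ (n / (2 * (D + 1))) : ℕ) : ℝ) = (2 : ℝ) ^ (n / (2 * (D + 1))) := by
      push_cast; ring
    have t1 : 2 * ((D + 1 : ℕ) : ℝ) * ((KK m + 6 : ℕ) : ℝ) ^ D /
        (θ ^ a * ((2 ^ (n / (2 * (D + 1))) : ℕ) : ℝ)) =
        (2 * (D + 1) * (KK m + 6 : ℝ) ^ D) / (θ ^ a * 2 ^ (n / (2 * (D + 1)))) := by
      rw [hN2]; push_cast; ring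
    have hF0 : (0 : ℝ) ≤ ((Fc (D + 1) (KK m)).card : ℝ) := Nat.cast_nonneg _
    have t2 : ((((2 ^ (n / (2 * (D + 1))) : ℕ) : ℝ)) ^ (D + 1) *
        ((Fc (D + 1) (KK m)).card : ℝ) + 1) *
          ((((Fc (D + 1) (KK m)).card : ℝ) + 1) *
            (((KK m + 6 : ℕ) : ℝ) ^ (D + 1) * Real.log (4 * ((D + 1 : ℕ) : ℝ))) /
            (Q.card * Real.log 2)) / θ ^ a ≤
        (((2 : ℝ) ^ (n / (2 * (D + 1)))) ^ (D + 1) * (2 * (D + 1) * (KK m + 4) ^ D) + 1) *
        ((2 * (D + 1) * (KK m + 4) ^ D + 1) * (KK m + 6) ^ (D + 1) * Real.log (4 * (D + 1)) /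
          (2 ^ n * Real.log 2)) / θ ^ a := by
      rw [hN2]
      push_cast
      refine div_le_div_of_nonneg_right ?_ hα.le
      refine mul_le_mul ?_ ?_ (by positivity) (by positivity)
      · have := mul_le_mul_of_nonneg_left hcF
          (by positivity : (0 : ℝ) ≤ ((2 : ℝ) ^ (n / (2 * (D + 1)))) ^ (D + 1))
        linarith
      · refine div_le_div₀ (by positivity) ?_ (by positivity)
          (mul_le_mul_of_nonneg_right hQc' hlog2.le)
        have h1 : ((Fc (D + 1) (KK m)).card : ℝ) + 1 ≤ 2 * ((D : ℝ) + 1) * ((KK m : ℝ) + 4) ^ D + 1 := by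
          linarith
        have h2 := mul_le_mul_of_nonneg_right h1
          (by positivity : (0 : ℝ) ≤ ((KK m : ℝ) + 6) ^ (D + 1) * Real.log (4 * ((D : ℝ) + 1)))
        calc _ ≤ _ := h2
          _ = _ := by ring
    rw [t1]
    linarith
  have hf0 : Tendsto f atTop (𝓝 0) := by
    have h1 := asym1 D hD θ hθ0 hθ1
    have h2 := asym2 D hD θ hθ0 hθ1
    have h3 : Tendsto (fun m : ℕ => 1 / ((m : ℝ) + 1)) atTop (𝓝 0) :=
      tendsto_one_div_add_atTop_nhds_zero_nat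
    have h4 : Tendsto (fun m : ℕ => (1 - p) ^ (KK m)) atTop (𝓝 0) := by
      have h5 : Tendsto KK atTop atTop := by
        refine tendsto_atTop_mono (fun m => ?_) tendsto_id
        show m ≤ KK m
        rw [KK]; omega
      exact (tendsto_pow_atTop_nhds_zero_of_lt_one (by linarith) (by linarith)).comp h5
    have := ((h3.add h1).add h2).add h4
    simpa [hf] using this
  choose! q r hqr1 hqr2 using key
  refine ⟨q, r, ?_, ?_⟩
  · filter_upwards [eventually_ge_atTop (max n0 4)] with m hm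
    exact hqr1 m hm
  · refine squeeze_zero' (Eventually.of_forall fun m => measureReal_nonneg) ?_ hf0
    filter_upwards [eventually_ge_atTop (max n0 4)] with m hm using hqr2 m hm


/-- the reference point of the box number `m` -/
def tt (d : ℕ) (m : ℕ) : Zd d := fun _ => 655200 * (m : ℤ) + 2

theorem main2p (D : ℕ) (hD : 1 ≤ D) (p : ℝ) (hp0 : 0 < p) (hp1 : p < 1) (qs rs : ℕ → ℕ)
    (h : Tendsto (fun m => (perc (D + 1) p).real {ω | ω ∈ (X2 (D + 1) (KK m)).G ∧
      ∃ u, HarC (rs m) ω u ∧ ∃ e ∈ (X2 (D + 1) (KK m)).E, ω e = true ∧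
        (u e.1 : ZMod (qs m)) ≠ u (hd e)}) atTop (𝓝 0)) :
    ∀ᵐ ω ∂(perc (D + 1) p), ∀ e : Ed (D + 1), ω e = true → ∀ M : ℕ, ∃ m ≥ M,
      ∀ c : Zd (D + 1) → ℤ, HarC (rs m) (sh (t3_z e.1 m) ω) c →
        (c (tt (D + 1) m) : ZMod (qs m)) = c (hd (tt (D + 1) m, e.2)) := by
  classical
  have hprob := perc_prob (d := D + 1) p hp0.le hp1.le
  set d := D + 1 with hd'
  -- the bad events
  have key : ∀ (e : Ed d) (M : ℕ), perc d p {ω | ω e = true ∧ ∀ m ≥ M,
      ∃ c : Zd d → ℤ, HarC (rs m) (sh (t3_z e.1 m) ω) c ∧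
        (c (tt d m) : ZMod (qs m)) ≠ c (hd (tt d m, e.2))} = 0 := by
    rintro ⟨v, i⟩ M
    choose EF' hEF' hcard using fun m => EB_fin d (KK m)
    let G : ℕ → Set (Env d) := fun m => {ω | sh (t3_z v m) ω ∈ (X2 d (KK m)).G}
    let F : ℕ → Finset (Ed d) := fun m => (EF' m).image fun f => (f.1 + t3_z v m, f.2)
    have hmem : ∀ m f, f ∈ EB d (KK m) ↔ f ∈ EF' m := fun m f => by
      rw [← hEF' m]
      exact Finset.mem_coe
    refine final_zero p hp0.le hp1.le F G ?_ ?_ (p ^ (4 * d ^ 2)) (by positivity) ?_ _ ?_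
    · intro m ω ω' hω
      have h1 : ∀ f ∈ EB d (KK m), sh (t3_z v m) ω f = sh (t3_z v m) ω' f := by
        intro f hf
        apply hω
        rw [Finset.mem_coe, Finset.mem_image]
        exact ⟨f, (hmem m f).1 hf, rfl⟩
      show (∀ f ∈ EB d (KK m), sh (t3_z v m) ω f = true) ↔
        (∀ f ∈ EB d (KK m), sh (t3_z v m) ω' f = true)
      constructor
      · intro h2 f hf
        rw [← h1 f hf]
        exact h2 f hf
      · intro h2 f hf
        rw [h1 f hf]
        exact h2 f hf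
    · intro m m' hmm
      rw [Finset.disjoint_left]
      intro e he he'
      rw [Finset.mem_image] at he he'
      obtain ⟨f, hf, rfl⟩ := he
      obtain ⟨f', hf', hff⟩ := he'
      refine EB_disj v m m' hmm (f.1 + t3_z v m, f.2) ?_ ?_
      · show (f.1 + t3_z v m - t3_z v m, f.2) ∈ EB d (KK m)
        rw [add_sub_cancel_right]
        exact (hmem m f).2 hf
      · show (f.1 + t3_z v m - t3_z v m', f.2) ∈ EB d (KK m')
        have h1 : f'.1 + t3_z v m' = f.1 + t3_z v m := (Prod.mk.inj hff).1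
        have h2 : f'.2 = f.2 := (Prod.mk.inj hff).2
        rw [← h1, add_sub_cancel_right, ← h2]
        exact (hmem m' f').2 hf'
    · intro m
      have h1 : perc d p (G m) = perc d p (X2 d (KK m)).G :=
        perc_shift p hp0.le hp1.le (t3_z v m) _
      have h2 : (X2 d (KK m)).G = {ω | ∀ e ∈ EF' m, ω e = true} := by
        ext ω
        show (∀ f ∈ EB d (KK m), ω f = true) ↔ _
        simp only [hmem]
        exact Iff.rfl
      unfold Measure.real
      rw [h1, h2]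
      have h3 := perc_cyl p hp0.le hp1.le (EF' m) (fun _ => true)
      unfold Measure.real at h3
      rw [h3]
      simp only [if_true]
      rw [Finset.prod_const]
      exact pow_le_pow_of_le_one hp0.le hp1.le (hcard m)
    · refine squeeze_zero' (Eventually.of_forall fun m => measureReal_nonneg) ?_ h
      filter_upwards [eventually_ge_atTop M] with m hm2
      have h1 := perc_shift p hp0.le hp1.le (t3_z v m)
        {ω : Env d | ω ∈ (X2 d (KK m)).G ∧ ∃ u, HarC (rs m) ω u ∧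
          ∃ e ∈ (X2 d (KK m)).E, ω e = true ∧ (u e.1 : ZMod (qs m)) ≠ u (hd e)}
      unfold Measure.real
      rw [← h1]
      apply ENNReal.toReal_mono (measure_ne_top _ _)
      apply measure_mono
      rintro ω ⟨⟨hω, hall⟩, hG⟩
      obtain ⟨c, hc, hne⟩ := hall m hm2
      refine ⟨hG, c, hc, (tt d m, i), t3_edge m i, ?_, hne⟩
      show ω (tt d m + t3_z v m, i) = true
      have : tt d m + t3_z v m = v := by
        unfold t3_z tt
        abel
      rw [this]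
      exact hω
  have h2 : ∀ᵐ ω ∂(perc d p), ∀ q : Ed d × ℕ, ¬ (ω q.1 = true ∧ ∀ m ≥ q.2,
      ∃ c : Zd d → ℤ, HarC (rs m) (sh (t3_z q.1.1 m) ω) c ∧
        (c (tt d m) : ZMod (qs m)) ≠ c (hd (tt d m, q.1.2))) := by
    rw [ae_all_iff]
    rintro ⟨e, M⟩
    rw [ae_iff]
    simp only [not_not]
    exact key e M
  filter_upwards [h2] with ω hω e he M
  by_contra hcon
  push Not at hcon
  exact hω (e, M) ⟨he, hcon⟩

/-- The almost sure statement about integer-valued functions on finite boxes. -/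
theorem main3p (D : ℕ) (hD : 1 ≤ D) (p : ℝ) (hp0 : 0 < p) (hp1 : p < 1) :
    ∃ rs : ℕ → ℕ, ∀ᵐ ω ∂(perc (D + 1) p), ∀ e : Ed (D + 1), ω e = true → ∀ M : ℕ,
      ∃ m q : ℕ, M < q ∧ q.Prime ∧
      ∀ c : Zd (D + 1) → ℤ, HarC (rs m) (sh (t3_z e.1 m) ω) c →
        (c (tt (D + 1) m) : ZMod q) = c (hd (tt (D + 1) m, e.2)) := by
  obtain ⟨qs, rs, h1, h2⟩ := main1p D hD p hp0 hp1
  obtain ⟨M0, hM0⟩ := eventually_atTop.1 h1
  refine ⟨rs, ?_⟩
  filter_upwards [main2p D hD p hp0 hp1 qs rs h2] with ω hω e he M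
  obtain ⟨m, hm, hc⟩ := hω e he (max M M0)
  have h3 := hM0 m ((le_max_right _ _).trans hm)
  exact ⟨m, qs m, lt_of_le_of_lt ((le_max_left _ _).trans hm) h3.2, h3.1, hc⟩

end Pool.Agent.Y304.HG
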